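import Pool.Agent.Lib.MP_0c3001_gt.DV.UM
import Pool.Agent.Lib.MP_0c3001_gt.DV.FR
import Pool.Agent.Lib.MP_0c3001_gt.Br.Main

/-!
# The centre of the fundamental group of a closed aspherical manifold is finitely generated up to divisible elements

Let `M` be a closed connected topological manifold with `π_k(M) = 0` for all `k ≥ 2`, `G = π₁(M)` and
`C` a central subgroup of `G`.  Then `C` is generated by a finite set together with those elements of
`C` that lie in all subgroups of finite index of `G` and, for every prime `l`, in a subgroup of `G`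
isomorphic to `ℤ[1/l]`.
-/

set_option autoImplicit false

namespace Pool.Agent.Results.MP_0c3001_gt.CentreGenerators

theorem result :
    ∀ (n : ℕ) (M : Type) [TopologicalSpace M] [T2Space M] [SecondCountableTopology M]
      [ChartedSpace (EuclideanSpace ℝ (Fin n)) M] [CompactSpace M] [ConnectedSpace M],
      (∀ (k : ℕ) (x : M), 2 ≤ k → Subsingleton (HomotopyGroup (Fin k) M x)) →
      ∀ (x : M) (C : Subgroup (FundamentalGroup M x)),
        C ≤ Subgroup.center (FundamentalGroup M x) →
        ∃ S : Set (FundamentalGroup M x), S.Finite ∧ C = Subgroup.closure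
          (S ∪ {z | z ∈ C ∧ (∀ H : Subgroup (FundamentalGroup M x), H.FiniteIndex → z ∈ H) ∧
            ∀ l : ℕ, l.Prime → ∃ D : Subgroup (FundamentalGroup M x), z ∈ D ∧
              Nonempty (D ≃* Multiplicative (Localization.Away (l : ℤ)))}) := by
  intro n M _ _ _ _ _ _ hπ x C hC
  have hk : Function.Bijective (Int.cast : ℤ → ℤ) := by
    have : (Int.cast : ℤ → ℤ) = id := by funext x; simp
    rw [this]; exact Function.bijective_id
  obtain ⟨⟨d, hd⟩, hfg⟩ := Pool.Agent.MP_0c3001_gt.Br.bridge n M hπ x hk
  have hcd : Pool.MP0c3001.Kills ℤ (FundamentalGroup M x) 1 (d + 1) := fun V i hi y => by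
    have := hd V i (by omega)
    exact Subsingleton.elim _ _
  obtain ⟨S, hS, hSC, hCS⟩ := Pool.MP0c3001.DV.theorem_U hk d hcd hfg C hC
  refine ⟨S, hS, le_antisymm (hCS.trans (Subgroup.closure_mono ?_)) ?_⟩
  · refine Set.union_subset_union_right S ?_
    rintro z ⟨hz, hl⟩
    exact ⟨hz, fun H hH => Pool.MP0c3001.DV.mem_finiteIndex hl H hH, hl⟩
  · rw [Subgroup.closure_le]
    rintro z (hz | hz)
    · exact hSC hz
    · exact hz.1

end Pool.Agent.Results.MP_0c3001_gt.CentreGenerators
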