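import Pool.Agent.Lib.MP_0c3001_gt.DV.UM
import Pool.Agent.Lib.MP_0c3001_gt.Br.Main

/-!
# Central elements of the fundamental group of a closed aspherical manifold with many roots

Let `M` be a closed connected topological manifold with `π_k(M) = 0` for all `k ≥ 2`, `G = π₁(M)` and
`z ≠ 1` a central element of `G`.  Then either `z` has a `q`-th root in `G` for only finitely many
`q`, or `z` lies for every prime `l` in a subgroup of `G` isomorphic to `ℤ[1/l]`.
-/

set_option autoImplicit false

namespace Pool.Agent.Results.MP_0c3001_gt.RootDichotomy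

theorem result :
    ∀ (n : ℕ) (M : Type) [TopologicalSpace M] [T2Space M] [SecondCountableTopology M]
      [ChartedSpace (EuclideanSpace ℝ (Fin n)) M] [CompactSpace M] [ConnectedSpace M],
      (∀ (k : ℕ) (x : M), 2 ≤ k → Subsingleton (HomotopyGroup (Fin k) M x)) →
      ∀ (x : M) (z : FundamentalGroup M x), z ∈ Subgroup.center (FundamentalGroup M x) → z ≠ 1 →
        {q : ℕ | ∃ r : FundamentalGroup M x, r ^ q = z}.Finite ∨
          ∀ l : ℕ, l.Prime → ∃ D : Subgroup (FundamentalGroup M x), z ∈ D ∧
            Nonempty (D ≃* Multiplicative (Localization.Away (l : ℤ))) := by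
  intro n M _ _ _ _ _ _ hπ x z hz hz1
  have hk : Function.Bijective (Int.cast : ℤ → ℤ) := by
    have : (Int.cast : ℤ → ℤ) = id := by funext x; simp
    rw [this]; exact Function.bijective_id
  obtain ⟨⟨d, hd⟩, hfg⟩ := Pool.Agent.MP_0c3001_gt.Br.bridge n M hπ x hk
  have hcd : Pool.MP0c3001.Kills ℤ (FundamentalGroup M x) 1 (d + 1) := fun V i hi y => by
    have := hd V i (by omega)
    exact Subsingleton.elim _ _
  by_cases hinf : {q : ℕ | ∃ r : FundamentalGroup M x, r ^ q = z}.Finite
  · exact Or.inl hinf
  · exact Or.inr (Pool.MP0c3001.DV.roots_divisible hk d hcd hfg z hz hz1 hinf)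

end Pool.Agent.Results.MP_0c3001_gt.RootDichotomy
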